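import Pool.Agent.H.MP_b7335c_lc.RookCount

/-!
# Adaptive two-probe schemes for two-element sets with fewer than `m ^ (2/3)` bits
-/

namespace Pool.Agent.Results.MP_b7335c_lc.SubTwoThirds

/-- The positions of an adaptive two-probe scheme on the universe `Fin m = {0, ..., m - 1}`: three
bit tables with `a`, `b` and `c` bits and, for every element `e` of the universe, a position
`posA e`, `posB e`, `posC e` in each of them. -/
structure Scheme (m a b c : ℕ) where
  posA : Fin m → Fin a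
  posB : Fin m → Fin b
  posC : Fin m → Fin c

/-- The answer to the query `e` when the three tables contain `fA`, `fB`, `fC`: read the bit of
the first table at `posA e`; if it is `0` (`false`) read the bit of the second table at `posB e`,
otherwise read the bit of the third table at `posC e`; the answer is this second bit. -/
def Scheme.answer {m a b c : ℕ} (σ : Scheme m a b c) (fA : Fin a → Bool) (fB : Fin b → Bool)
    (fC : Fin c → Bool) (e : Fin m) : Bool :=
  if fA (σ.posA e) = false then fB (σ.posB e) else fC (σ.posC e)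

/-- The scheme is correct for subsets of size at most `n`: every `S` with at most `n` elements has
a filling of the three tables for which the answer to every query `e` is `1` exactly when
`e ∈ S`. -/
def Scheme.Correct {m a b c : ℕ} (σ : Scheme m a b c) (n : ℕ) : Prop :=
  ∀ S : Finset (Fin m), S.card ≤ n →
    ∃ (fA : Fin a → Bool) (fB : Fin b → Bool) (fC : Fin c → Bool),
      ∀ e : Fin m, σ.answer fA fB fC e = true ↔ e ∈ S

/-- There is a correct scheme for subsets of size at most `n` of a universe of size `m` whose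
three tables have `s` bits in total. -/
def HasScheme (n m s : ℕ) : Prop :=
  ∃ a b c : ℕ, a + b + c = s ∧ ∃ σ : Scheme m a b c, σ.Correct n

/-- `minSpace n m` is `s_A(n, m, 2)`, the minimum space of a correct adaptive two-probe scheme for
subsets of size at most `n` of a universe of size `m`. -/
noncomputable def minSpace (n m : ℕ) : ℕ := sInf {s : ℕ | HasScheme n m s}

lemma hasScheme_trivial (n m : ℕ) : HasScheme n m (1 + m + 1) := by
  refine ⟨1, m, 1, rfl, ⟨fun _ => 0, id, fun _ => 0⟩, fun S _ => ?_⟩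
  refine ⟨fun _ => false, fun b => decide (b ∈ S), fun _ => false, fun e => ?_⟩
  simp [Scheme.answer]

lemma isLeast_minSpace (n m : ℕ) : IsLeast {s : ℕ | HasScheme n m s} (minSpace n m) :=
  ⟨Nat.sInf_mem ⟨_, hasScheme_trivial n m⟩, fun _ hs => Nat.sInf_le hs⟩

lemma minSpace_le (m : ℕ) (hm : 1 ≤ m) :
    (minSpace 2 m : ℝ) ≤ 120 * (m : ℝ) ^ (Real.log 24 / Real.log 144) := by
  obtain ⟨a, b, c, h1, A, B, C, h2⟩ := Pool.Agent.H.MP_b7335c_lc.exists_tables_rpow m hm
  refine le_trans ?_ h1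
  have h3 : HasScheme 2 m (a + b + c) := ⟨a, b, c, rfl, ⟨A, B, C⟩, h2⟩
  exact_mod_cast Nat.sInf_le h3

/-- `s_A(2, m, 2) ≤ 120 · m ^ θ` for all `m ≥ 1`, where `θ = log 24 / log 144 < 0.64`.
In particular `s_A(2, m, 2)` is not `Ω(m ^ (2/3))`, and even `s_A(2, m, 2) = o(m ^ (2/3))`. -/
theorem result :
    (∀ n m : ℕ, IsLeast {s : ℕ | HasScheme n m s} (minSpace n m)) ∧
    (∀ m : ℕ, 1 ≤ m → (minSpace 2 m : ℝ) ≤ 120 * (m : ℝ) ^ (Real.log 24 / Real.log 144)) ∧
    Real.log 24 / Real.log 144 < 16 / 25 ∧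
    (∀ c : ℝ, 0 < c → ∃ M : ℕ, ∀ m : ℕ, M ≤ m →
      (minSpace 2 m : ℝ) < c * (m : ℝ) ^ ((2 : ℝ) / 3)) := by
  refine ⟨isLeast_minSpace, minSpace_le, Pool.Agent.H.MP_b7335c_lc.theta_lt, fun c hc => ?_⟩
  set θ : ℝ := Real.log 24 / Real.log 144 with hθ
  have hlt : θ < 16 / 25 := Pool.Agent.H.MP_b7335c_lc.theta_lt
  have h1 : Filter.Tendsto (fun m : ℕ => (m : ℝ) ^ ((2 : ℝ) / 3 - θ)) Filter.atTop
      Filter.atTop :=
    (tendsto_rpow_atTop (by linarith)).comp tendsto_natCast_atTop_atTop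
  obtain ⟨M, hM⟩ := (Filter.eventually_atTop.1 (h1.eventually_gt_atTop (120 / c)))
  refine ⟨max M 1, fun m hm => ?_⟩
  have hm1 : 1 ≤ m := le_trans (le_max_right _ _) hm
  have hm0 : (0 : ℝ) < m := by exact_mod_cast hm1
  have h2 := hM m (le_trans (le_max_left _ _) hm)
  rw [div_lt_iff₀ hc] at h2
  have h3 : (m : ℝ) ^ ((2 : ℝ) / 3) = (m : ℝ) ^ ((2 : ℝ) / 3 - θ) * (m : ℝ) ^ θ := by
    rw [← Real.rpow_add hm0]
    congr 1
    ring
  rw [h3]
  have h4 : 0 < (m : ℝ) ^ θ := Real.rpow_pos_of_pos hm0 _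
  calc (minSpace 2 m : ℝ) ≤ 120 * (m : ℝ) ^ θ := minSpace_le m hm1
    _ < ((m : ℝ) ^ ((2 : ℝ) / 3 - θ) * c) * (m : ℝ) ^ θ := mul_lt_mul_of_pos_right h2 h4
    _ = c * ((m : ℝ) ^ ((2 : ℝ) / 3 - θ) * (m : ℝ) ^ θ) := by ring

end Pool.Agent.Results.MP_b7335c_lc.SubTwoThirds
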